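import Pool.Agent.H2.AVR.BIR
import Pool.Agent.H14.AVR.Stmts2

set_option autoImplicit false
set_option linter.all false

namespace Pool.AVR.AAV2

open Polynomial IsDedekindDomain BIR2
open scoped NNReal

section

variable (F : Type) [Field F] [Finite F]

/-- the order of `F` -/
noncomputable def q : ℝ≥0 := Nat.card F

lemma one_lt_q : 1 < q F := by
  unfold q
  exact_mod_cast Finite.one_lt_card (α := F)

end

variable {F : Type} [Field F] [Finite F]

/-- generator -/
noncomputable def gen (v : HeightOneSpectrum F[X]) : F[X] :=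
  Submodule.IsPrincipal.generator v.asIdeal

lemma span_gen (v : HeightOneSpectrum F[X]) : v.asIdeal = Ideal.span {gen v} :=
  (Ideal.span_singleton_generator v.asIdeal).symm

lemma gen_ne (v : HeightOneSpectrum F[X]) : gen v ≠ 0 := by
  intro h
  apply v.ne_bot
  rw [span_gen v, h, Ideal.span_singleton_eq_bot]

lemma gen_prime (v : HeightOneSpectrum F[X]) : Prime (gen v) := by
  have := v.isPrime
  rw [span_gen v] at this
  exact (Ideal.span_singleton_prime (gen_ne v)).1 this

lemma dg_pos (v : HeightOneSpectrum F[X]) : 0 < (gen v).natDegree :=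
  Polynomial.natDegree_pos_of_not_isUnit_of_dvd_monic' v
where
  Polynomial.natDegree_pos_of_not_isUnit_of_dvd_monic' (v : HeightOneSpectrum F[X]) :
      0 < (gen v).natDegree := (gen_prime v).irreducible.natDegree_pos

lemma one_lt_b (v : HeightOneSpectrum F[X]) : 1 < q F ^ (gen v).natDegree :=
  one_lt_pow₀ (one_lt_q F) (dg_pos v).ne'

/-- the absolute value of a place -/
noncomputable def abv (v : HeightOneSpectrum F[X]) : AbsoluteValue (RatFunc F) ℝ :=
  v.adicAbv (one_lt_b v)

lemma abv_le (v : HeightOneSpectrum F[X]) (p : F[X]) :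
    abv v (algebraMap F[X] (RatFunc F) p) ≤ 1 := v.adicAbv_coe_le_one (one_lt_b v) p

lemma abv_lt_iff (v : HeightOneSpectrum F[X]) (p : F[X]) :
    abv v (algebraMap F[X] (RatFunc F) p) < 1 ↔ p ∈ v.asIdeal :=
  v.adicAbv_coe_lt_one_iff (one_lt_b v) p

lemma abv_eq_iff (v : HeightOneSpectrum F[X]) (p : F[X]) :
    abv v (algebraMap F[X] (RatFunc F) p) = 1 ↔ p ∉ v.asIdeal :=
  v.adicAbv_coe_eq_one_iff (one_lt_b v) p

lemma abv_inj : Function.Injective (abv (F := F)) := by
  intro v w h
  apply HeightOneSpectrum.ext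
  ext p
  rw [← abv_lt_iff, ← abv_lt_iff, h]

lemma abv_gen (v w : HeightOneSpectrum F[X]) (p : F[X]) (hp : p ≠ 0)
    (hv : v.asIdeal = Ideal.span {p}) :
    abv v (algebraMap F[X] (RatFunc F) p) = ((q F : ℝ) ^ p.natDegree)⁻¹ := by
  unfold abv
  rw [v.adicAbv_of_algebraMap]
  show ((WithZeroMulInt.toNNReal (ne_zero_of_lt (one_lt_b v)) (v.intValuation p) : ℝ≥0) : ℝ) = _
  rw [v.intValuation_singleton hp hv, WithZeroMulInt.toNNReal_neg_apply _ WithZero.exp_ne_zero]
  have h1 : Associated (gen v) p := by
    rw [← Ideal.span_singleton_eq_span_singleton, ← span_gen, hv]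
  have h2 : (gen v).natDegree = p.natDegree := Polynomial.natDegree_eq_of_degree_eq
    (Polynomial.degree_eq_degree_of_associated h1)
  rw [h2]
  have h3 : (WithZero.unzero (WithZero.exp_ne_zero (a := (-1 : ℤ)))).toAdd = -1 := rfl
  rw [h3, zpow_neg_one]
  push_cast
  rfl

lemma finite_supp (p : F[X]) (hp : p ≠ 0) :
    (fun v => abv v (algebraMap F[X] (RatFunc F) p)).HasFiniteMulSupport := by
  have h := Ideal.finite_factors (I := Ideal.span {p})
    (by rwa [Ne, Submodule.zero_eq_bot, Ideal.span_singleton_eq_bot])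
  refine h.subset fun v hv => ?_
  rw [Function.mem_mulSupport] at hv
  have h1 : p ∈ v.asIdeal := by
    by_contra hc
    exact hv ((abv_eq_iff v p).2 hc)
  show v.asIdeal ∣ Ideal.span {p}
  rw [Ideal.dvd_span_singleton]
  exact h1

lemma prod_poly (p : F[X]) (hp : p ≠ 0) :
    ∏ᶠ v, abv v (algebraMap F[X] (RatFunc F) p) = ((q F : ℝ) ^ p.natDegree)⁻¹ := by
  revert hp
  refine UniqueFactorizationMonoid.induction_on_prime p ?_ ?_ ?_
  · intro h; exact absurd rfl h
  · intro u hu _
    have h1 : ∀ v, abv v (algebraMap F[X] (RatFunc F) u) = 1 := by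
      intro v
      rw [abv_eq_iff]
      intro h
      exact v.isPrime.ne_top (Ideal.eq_top_of_isUnit_mem _ h hu)
    rw [finprod_congr h1, finprod_one, Polynomial.natDegree_eq_zero_of_isUnit hu, pow_zero,
      inv_one]
  · intro a p ha hp ih h0
    have hp0 : p ≠ 0 := hp.ne_zero
    have h1 : ∏ᶠ v, abv v (algebraMap F[X] (RatFunc F) p) = ((q F : ℝ) ^ p.natDegree)⁻¹ := by
      let w : HeightOneSpectrum F[X] := ⟨Ideal.span {p}, (Ideal.span_singleton_prime hp0).2 hp,
        by rwa [Ne, Ideal.span_singleton_eq_bot]⟩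
      rw [finprod_eq_single _ w]
      · exact abv_gen w w p hp0 rfl
      · intro v hv
        rw [abv_eq_iff]
        intro hpv
        apply hv
        have h3 : gen v ∣ p := by
          rw [← Ideal.mem_span_singleton, ← span_gen]
          exact hpv
        have h4 : Associated (gen v) p :=
          (gen_prime v).irreducible.associated_of_dvd hp.irreducible h3
        apply HeightOneSpectrum.ext
        show v.asIdeal = Ideal.span {p}
        rw [span_gen v, Ideal.span_singleton_eq_span_singleton]
        exact h4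
    have h2 : ∏ᶠ v, abv v (algebraMap F[X] (RatFunc F) (p * a)) =
        (∏ᶠ v, abv v (algebraMap F[X] (RatFunc F) p)) *
          ∏ᶠ v, abv v (algebraMap F[X] (RatFunc F) a) := by
      rw [← finprod_mul_distrib (finite_supp p hp0) (finite_supp a ha)]
      refine finprod_congr fun v => ?_
      rw [map_mul, map_mul]
    rw [h2, h1, ih ha, Polynomial.natDegree_mul hp0 ha, pow_add, mul_inv]

open Classical in
/-- the absolute value at infinity -/
noncomputable def abvInf (F : Type) [Field F] [Finite F] : AbsoluteValue (RatFunc F) ℝ where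
  toFun x := if x = 0 then 0 else (q F : ℝ) ^ x.intDegree
  map_mul' x y := by
    by_cases hx : x = 0
    · simp [hx]
    by_cases hy : y = 0
    · simp [hy]
    have h1 : (q F : ℝ) ≠ 0 := by
      have := one_lt_q F
      exact_mod_cast (zero_lt_one.trans this).ne'
    rw [if_neg (mul_ne_zero hx hy), if_neg hx, if_neg hy, RatFunc.intDegree_mul hx hy,
      zpow_add₀ h1]
  nonneg' x := by
    split_ifs
    · exact le_rfl
    · positivity
  eq_zero' x := by
    constructor
    · intro h
      by_contra hx
      rw [if_neg hx] at h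
      have h1 : (0 : ℝ) < q F := by
        have := one_lt_q F
        exact_mod_cast (zero_lt_one.trans this)
      exact (zpow_pos h1 _).ne' h
    · intro h
      rw [if_pos h]
  add_le' x y := by
    have h1 : (1 : ℝ) < q F := by exact_mod_cast one_lt_q F
    have h0 : (0 : ℝ) < q F := by linarith
    by_cases hx : x = 0
    · simp [hx]
    by_cases hy : y = 0
    · simp [hy]
    by_cases hxy : x + y = 0
    · rw [if_pos hxy, if_neg hx, if_neg hy]
      positivity
    rw [if_neg hx, if_neg hy, if_neg hxy]
    have h2 := RatFunc.intDegree_add_le hy hxy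
    rcases le_max_iff.1 h2 with h | h
    · have := zpow_le_zpow_right₀ h1.le h
      have h3 := zpow_pos h0 y.intDegree
      linarith
    · have := zpow_le_zpow_right₀ h1.le h
      have h3 := zpow_pos h0 x.intDegree
      linarith

lemma abvInf_ne (x : RatFunc F) (hx : x ≠ 0) : abvInf F x = (q F : ℝ) ^ x.intDegree :=
  if_neg hx

lemma finite_supp' (x : RatFunc F) (hx : x ≠ 0) :
    (fun v => abv v x).HasFiniteMulSupport := by
  have h1 := finite_supp x.num (RatFunc.num_ne_zero hx)
  have h2 := finite_supp x.denom (RatFunc.denom_ne_zero x)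
  refine (h1.union h2).subset fun v hv => ?_
  rw [Function.mem_mulSupport] at hv
  by_contra hc
  rw [Set.mem_union, not_or] at hc
  have h3 := Function.notMem_mulSupport.1 hc.1
  have h4 := Function.notMem_mulSupport.1 hc.2
  apply hv
  conv_lhs => rw [← RatFunc.num_div_denom x]
  rw [map_div₀, h3, h4, div_one]

lemma q_ne : (q F : ℝ) ≠ 0 := by
  have := one_lt_q F
  exact_mod_cast (zero_lt_one.trans this).ne'

lemma prod_all (x : RatFunc F) (hx : x ≠ 0) : abvInf F x * ∏ᶠ v, abv v x = 1 := by
  have hn := RatFunc.num_ne_zero hx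
  have hd := RatFunc.denom_ne_zero x
  have e : ∏ᶠ v, abv v x = (∏ᶠ v, abv v (algebraMap F[X] (RatFunc F) x.num)) *
      (∏ᶠ v, abv v (algebraMap F[X] (RatFunc F) x.denom))⁻¹ := by
    rw [← finprod_inv_distrib]
    have h2 : (fun v => (abv v (algebraMap F[X] (RatFunc F) x.denom))⁻¹).HasFiniteMulSupport := by
      refine (finite_supp x.denom hd).subset fun v hv => ?_
      rw [Function.mem_mulSupport] at hv ⊢
      intro h
      apply hv
      rw [h, inv_one]
    rw [← finprod_mul_distrib (finite_supp x.num hn) h2]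
    refine finprod_congr fun v => ?_
    conv_lhs => rw [← RatFunc.num_div_denom x]
    rw [map_div₀, div_eq_mul_inv]
  rw [e, prod_poly _ hn, prod_poly _ hd, abvInf_ne x hx]
  have h3 : x.intDegree = (x.num.natDegree : ℤ) - x.denom.natDegree := rfl
  rw [h3, zpow_sub₀ q_ne, zpow_natCast, zpow_natCast, inv_inv]
  have := pow_ne_zero x.num.natDegree (q_ne (F := F))
  have := pow_ne_zero x.denom.natDegree (q_ne (F := F))
  field_simp

/-- the equivalence between places and absolute values -/
noncomputable def ee (F : Type) [Field F] [Finite F] :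
    HeightOneSpectrum F[X] ≃ Set.range (abv (F := F)) := Equiv.ofInjective _ abv_inj

/-- the admissible absolute values -/
@[instance_reducible] noncomputable def inst (F : Type) [Field F] [Finite F] :
    Height.AdmissibleAbsValues (RatFunc F) where
  archAbsVal := {abvInf F}
  nonarchAbsVal := Set.range (abv (F := F))
  isNonarchimedean := by
    rintro _ ⟨v, rfl⟩
    exact v.isNonarchimedean_adicAbv (one_lt_b v)
  hasFiniteMulSupport := by
    intro x hx
    have h := finite_supp' x hx
    refine (h.image (ee F)).subset ?_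
    intro w hw
    obtain ⟨v, rfl⟩ := (ee F).surjective w
    exact ⟨v, hw, rfl⟩
  product_formula := by
    intro x hx
    rw [Multiset.map_singleton, Multiset.prod_singleton]
    have e : ∏ᶠ v : Set.range (abv (F := F)), v.val x = ∏ᶠ v, abv v x :=
      (finprod_comp_equiv (ee F) (f := fun v => v.val x)).symm
    rw [e]
    exact prod_all x hx

lemma height_lower (x : RatFunc F) :
    max ((q F : ℝ) ^ x.num.natDegree) ((q F : ℝ) ^ x.denom.natDegree) ≤
      @Height.mulHeight₁ (RatFunc F) _ (inst F) x := by
  have h1 : (1 : ℝ) < q F := by exact_mod_cast one_lt_q F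
  have h0 : (0 : ℝ) < q F := by linarith
  have e0 : @Height.mulHeight₁ (RatFunc F) _ (inst F) x =
      (Multiset.map (fun v : AbsoluteValue (RatFunc F) ℝ => max (v x) 1) {abvInf F}).prod *
        ∏ᶠ v : Set.range (abv (F := F)), max (v.val x) 1 := rfl
  rw [e0, Multiset.map_singleton, Multiset.prod_singleton]
  have e : ∏ᶠ v : Set.range (abv (F := F)), max (v.val x) 1 = ∏ᶠ v, max (abv v x) 1 :=
    (finprod_comp_equiv (ee F) (f := fun v => max (v.val x) 1)).symm
  have hd := RatFunc.denom_ne_zero x
  have e2 : ∏ᶠ v, max (abv v x) 1 = (q F : ℝ) ^ x.denom.natDegree := by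
    have e3 : ∀ v, max (abv v x) 1 = (abv v (algebraMap F[X] (RatFunc F) x.denom))⁻¹ := by
      intro v
      have hx : abv v x = abv v (algebraMap F[X] (RatFunc F) x.num) /
          abv v (algebraMap F[X] (RatFunc F) x.denom) := by
        conv_lhs => rw [← RatFunc.num_div_denom x]
        rw [map_div₀]
      by_cases hv : x.denom ∈ v.asIdeal
      · have hn : x.num ∉ v.asIdeal := by
          intro hn
          obtain ⟨a, b, hab⟩ := RatFunc.isCoprime_num_denom x
          apply v.isPrime.ne_top
          rw [Ideal.eq_top_iff_one, ← hab]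
          exact add_mem (Ideal.mul_mem_left _ _ hn) (Ideal.mul_mem_left _ _ hv)
        rw [hx, (abv_eq_iff v _).2 hn, one_div]
        refine max_eq_left ?_
        have hpos : 0 < abv v (algebraMap F[X] (RatFunc F) x.denom) :=
          (abv v).pos (RatFunc.algebraMap_ne_zero hd)
        exact (one_le_inv₀ hpos).2 (abv_le v _)
      · rw [hx, (abv_eq_iff v _).2 hv, div_one, inv_one]
        exact max_eq_right (abv_le v _)
    rw [finprod_congr e3, finprod_inv_distrib, prod_poly _ hd, inv_inv]
  rw [e, e2]
  refine max_le ?_ ?_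
  · by_cases hx : x = 0
    · rw [hx]
      simp
    have h3 : (q F : ℝ) ^ x.num.natDegree = abvInf F x * (q F : ℝ) ^ x.denom.natDegree := by
      have h4 : x.intDegree = (x.num.natDegree : ℤ) - x.denom.natDegree := rfl
      rw [abvInf_ne x hx, h4, zpow_sub₀ q_ne, zpow_natCast, zpow_natCast]
      have := pow_ne_zero x.denom.natDegree (q_ne (F := F))
      field_simp
    rw [h3]
    exact mul_le_mul_of_nonneg_right (le_max_left _ _) (by positivity)
  · exact le_mul_of_one_le_left (by positivity) (le_max_right _ _)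

end Pool.AVR.AAV2

namespace Pool.AVR

open Polynomial IsDedekindDomain AAV2

theorem aav_thm : AAVStmt := by
  intro F _ _
  refine ⟨inst F, ⟨fun B => ?_⟩⟩
  have h1 : (1 : ℝ) < q F := by exact_mod_cast one_lt_q F
  obtain ⟨N, hN⟩ := pow_unbounded_of_one_lt B h1
  have hfin : (Polynomial.degreeLT F N : Set F[X]).Finite := by
    have : Finite (Polynomial.degreeLT F N) :=
      Finite.of_equiv _ (Polynomial.degreeLTEquiv F N).toEquiv.symm
    exact Set.toFinite _
  have hsub : {x : RatFunc F | @Height.mulHeight₁ (RatFunc F) _ (inst F) x ≤ B} ⊆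
      (fun p : F[X] × F[X] => algebraMap F[X] (RatFunc F) p.1 /
        algebraMap F[X] (RatFunc F) p.2) ''
        ((Polynomial.degreeLT F N : Set F[X]) ×ˢ (Polynomial.degreeLT F N : Set F[X])) := by
    intro x hx
    have hx' : @Height.mulHeight₁ (RatFunc F) _ (inst F) x ≤ B := hx
    have h2 := (height_lower x).trans hx'
    have key : ∀ p : F[X], (q F : ℝ) ^ p.natDegree ≤ B →
        p ∈ (Polynomial.degreeLT F N : Set F[X]) := by
      intro p hp
      rw [SetLike.mem_coe, Polynomial.mem_degreeLT]
      have h3 : (q F : ℝ) ^ p.natDegree < (q F : ℝ) ^ N := hp.trans_lt hN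
      have h4 : p.natDegree < N := (pow_lt_pow_iff_right₀ h1).1 h3
      exact lt_of_le_of_lt Polynomial.degree_le_natDegree (by exact_mod_cast h4)
    refine ⟨(x.num, x.denom), ⟨key _ ((le_max_left _ _).trans h2),
      key _ ((le_max_right _ _).trans h2)⟩, ?_⟩
    exact RatFunc.num_div_denom x
  exact ((hfin.prod hfin).image _).subset hsub

end Pool.AVR

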