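import Pool.Agent.H14.AVR.Stmts

set_option autoImplicit false
set_option linter.all false

namespace Pool.AVR.BIR2

open Polynomial Matrix

variable {F : Type} [Field F]

lemma mem_OInf {x : RatFunc F} : x ∈ OInf F ↔ x.intDegree ≤ 0 := Iff.rfl

lemma intDegree_X_pow (n : ℕ) : ((RatFunc.X : RatFunc F) ^ n).intDegree = n := by
  induction n with
  | zero => simp
  | succ k ih =>
    rw [pow_succ, RatFunc.intDegree_mul (pow_ne_zero _ RatFunc.X_ne_zero) RatFunc.X_ne_zero, ih,
      RatFunc.intDegree_X]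
    push_cast
    ring

lemma intDegree_X_zpow (n : ℤ) : ((RatFunc.X : RatFunc F) ^ n).intDegree = n := by
  obtain ⟨k, rfl | rfl⟩ := n.eq_nat_or_neg
  · simpa using intDegree_X_pow k
  · rw [_root_.zpow_neg, RatFunc.intDegree_inv]
    simpa using intDegree_X_pow k

lemma C_mem (c : F) : RatFunc.C c ∈ OInf F := by
  rw [mem_OInf, RatFunc.intDegree_C]

lemma Xinv_mem : (RatFunc.X : RatFunc F)⁻¹ ∈ OInf F := by
  rw [mem_OInf, RatFunc.intDegree_inv, RatFunc.intDegree_X]
  norm_num

lemma det_mem (M : Matrix (Fin 3) (Fin 3) (RatFunc F)) (hM : ∀ i j, M i j ∈ OInf F) :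
    M.det ∈ OInf F := by
  rw [Matrix.det_apply']
  refine sum_mem fun σ _ => mul_mem ?_ (prod_mem fun i _ => hM _ _)
  exact intCast_mem _ _

lemma exists_const (x : RatFunc F) (hx : x ∈ OInf F) :
    ∃ c : F, RatFunc.X * (x - RatFunc.C c) ∈ OInf F := by
  have hq : x.denom.Monic := RatFunc.monic_denom x
  have hq0 : x.denom ≠ 0 := hq.ne_zero
  have hd : (x.num.natDegree : ℤ) - x.denom.natDegree ≤ 0 := hx
  refine ⟨x.num.coeff x.denom.natDegree, ?_⟩
  set p := x.num with hp
  set q := x.denom with hqd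
  set c := p.coeff q.natDegree with hc
  have hqR : algebraMap F[X] (RatFunc F) q ≠ 0 := by
    simpa using hq0
  have e1 : x - RatFunc.C c = algebraMap F[X] (RatFunc F) (p - Polynomial.C c * q) /
      algebraMap F[X] (RatFunc F) q := by
    rw [map_sub, map_mul, sub_div, mul_div_assoc, div_self hqR, mul_one,
      RatFunc.algebraMap_C, hp, hqd, RatFunc.num_div_denom]
  by_cases hr : p - Polynomial.C c * q = 0
  · rw [e1, hr, map_zero, zero_div, mul_zero]
    exact zero_mem _
  have hrR : algebraMap F[X] (RatFunc F) (p - Polynomial.C c * q) ≠ 0 :=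
    RatFunc.algebraMap_ne_zero hr
  rw [e1, mem_OInf, RatFunc.intDegree_mul RatFunc.X_ne_zero (div_ne_zero hrR hqR),
    RatFunc.intDegree_div hrR hqR, RatFunc.intDegree_polynomial, RatFunc.intDegree_polynomial,
    RatFunc.intDegree_X]
  have h1 : (p - Polynomial.C c * q).natDegree ≤ q.natDegree := by
    refine (Polynomial.natDegree_sub_le _ _).trans (max_le (by omega) ?_)
    exact Polynomial.natDegree_C_mul_le _ _
  have h2 : (p - Polynomial.C c * q).natDegree ≠ q.natDegree := by
    intro h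
    apply hr
    rw [← Polynomial.leadingCoeff_eq_zero, Polynomial.leadingCoeff, h, Polynomial.coeff_sub,
      Polynomial.coeff_C_mul, hq.coeff_natDegree, hc]
    ring
  omega

lemma det_expand {K : Type} [Field K] (X t : K) (ht : X * t = 1)
    (A Y : Matrix (Fin 3) (Fin 3) K) :
    X * ((A + t • Y).det - A.det) = (A.adjugate * Y).trace + t * (A * Y.adjugate).trace
      + t ^ 2 * Y.det := by
  rw [Matrix.trace_fin_three, Matrix.trace_fin_three]
  simp only [Matrix.mul_apply, Fin.sum_univ_three]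
  rw [Matrix.adjugate_fin_three, Matrix.adjugate_fin_three]
  simp [Matrix.det_fin_three]
  linear_combination
    (A 0 0 * A 1 1 * Y 2 2 + A 0 0 * Y 1 1 * A 2 2 + Y 0 0 * A 1 1 * A 2 2
    - A 0 0 * A 1 2 * Y 2 1 - A 0 0 * Y 1 2 * A 2 1 - Y 0 0 * A 1 2 * A 2 1
    - A 0 1 * A 1 0 * Y 2 2 - A 0 1 * Y 1 0 * A 2 2 - Y 0 1 * A 1 0 * A 2 2
    + A 0 1 * A 1 2 * Y 2 0 + A 0 1 * Y 1 2 * A 2 0 + Y 0 1 * A 1 2 * A 2 0
    + A 0 2 * A 1 0 * Y 2 1 + A 0 2 * Y 1 0 * A 2 1 + Y 0 2 * A 1 0 * A 2 1
    - A 0 2 * A 1 1 * Y 2 0 - A 0 2 * Y 1 1 * A 2 0 - Y 0 2 * A 1 1 * A 2 0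
    + t * (A 0 0 * Y 1 1 * Y 2 2 + Y 0 0 * A 1 1 * Y 2 2 + Y 0 0 * Y 1 1 * A 2 2
    - A 0 0 * Y 1 2 * Y 2 1 - Y 0 0 * A 1 2 * Y 2 1 - Y 0 0 * Y 1 2 * A 2 1
    - A 0 1 * Y 1 0 * Y 2 2 - Y 0 1 * A 1 0 * Y 2 2 - Y 0 1 * Y 1 0 * A 2 2
    + A 0 1 * Y 1 2 * Y 2 0 + Y 0 1 * A 1 2 * Y 2 0 + Y 0 1 * Y 1 2 * A 2 0
    + A 0 2 * Y 1 0 * Y 2 1 + Y 0 2 * A 1 0 * Y 2 1 + Y 0 2 * Y 1 0 * A 2 1
    - A 0 2 * Y 1 1 * Y 2 0 - Y 0 2 * A 1 1 * Y 2 0 - Y 0 2 * Y 1 1 * A 2 0)
    + t ^ 2 * (Y 0 0 * Y 1 1 * Y 2 2 - Y 0 0 * Y 1 2 * Y 2 1 - Y 0 1 * Y 1 0 * Y 2 2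
    + Y 0 1 * Y 1 2 * Y 2 0 + Y 0 2 * Y 1 0 * Y 2 1 - Y 0 2 * Y 1 1 * Y 2 0)) * ht

lemma mul_mem' (A B : Matrix (Fin 3) (Fin 3) (RatFunc F)) (hA : ∀ i j, A i j ∈ OInf F)
    (hB : ∀ i j, B i j ∈ OInf F) (i j : Fin 3) : (A * B) i j ∈ OInf F := by
  rw [Matrix.mul_apply]
  exact sum_mem fun l _ => mul_mem (hA _ _) (hB _ _)

lemma trace_mem (A : Matrix (Fin 3) (Fin 3) (RatFunc F)) (hA : ∀ i j, A i j ∈ OInf F) :
    A.trace ∈ OInf F := by
  rw [Matrix.trace]
  exact sum_mem fun l _ => hA _ _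

lemma adj_mem (A : Matrix (Fin 3) (Fin 3) (RatFunc F)) (hA : ∀ i j, A i j ∈ OInf F)
    (i j : Fin 3) : A.adjugate i j ∈ OInf F := by
  rw [Matrix.adjugate_apply]
  refine det_mem _ fun k l => ?_
  rw [Matrix.updateRow_apply]
  split_ifs
  · by_cases h : l = i
    · subst h
      simpa using one_mem _
    · rw [Pi.single_eq_of_ne h]
      exact zero_mem _
  · exact hA _ _

end Pool.AVR.BIR2

namespace Pool.AVR

open Polynomial Matrix BIR2

theorem bir_thm : BIRStmt := by
  classical
  intro F _ g hg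
  set P : ℤ → Prop := fun s => ∃ (γ : Matrix (Fin 3) (Fin 3) F[X]) (d : Fin 3 → ℤ),
    IsUnit γ.det ∧ (∀ i j, (g * γ.map (algebraMap F[X] (RatFunc F))) i j *
      (RatFunc.X : RatFunc F) ^ (- d j) ∈ OInf F) ∧ ∑ i, d i = s with hP
  have hX0 : (RatFunc.X : RatFunc F) ≠ 0 := RatFunc.X_ne_zero
  -- determinant of the map
  have hdetmap : ∀ γ : Matrix (Fin 3) (Fin 3) F[X], IsUnit γ.det →
      (γ.map (algebraMap F[X] (RatFunc F))).det ≠ 0 ∧
      (γ.map (algebraMap F[X] (RatFunc F))).det.intDegree = 0 := by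
    intro γ hγ
    have e : (γ.map (algebraMap F[X] (RatFunc F))).det = algebraMap F[X] (RatFunc F) γ.det := by
      rw [RingHom.map_det]
      rfl
    obtain ⟨c, hc, hc'⟩ := Polynomial.isUnit_iff.1 hγ
    rw [e, ← hc']
    refine ⟨?_, ?_⟩
    · simpa using hc.ne_zero
    · rw [RatFunc.algebraMap_C, RatFunc.intDegree_C]
  have hdetK : ∀ (γ : Matrix (Fin 3) (Fin 3) F[X]) (d : Fin 3 → ℤ), IsUnit γ.det →
      (Matrix.of fun i j => (g * γ.map (algebraMap F[X] (RatFunc F))) i j *
      (RatFunc.X : RatFunc F) ^ (- d j)).det ≠ 0 ∧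
      (Matrix.of fun i j => (g * γ.map (algebraMap F[X] (RatFunc F))) i j *
      (RatFunc.X : RatFunc F) ^ (- d j)).det.intDegree = g.det.intDegree - ∑ i, d i := by
    intro γ d hγ
    have e : (Matrix.of fun i j => (g * γ.map (algebraMap F[X] (RatFunc F))) i j *
      (RatFunc.X : RatFunc F) ^ (- d j)) = (g * γ.map (algebraMap F[X] (RatFunc F))) *
        Matrix.diagonal (fun j => (RatFunc.X : RatFunc F) ^ (- d j)) := by
      ext i j
      rw [Matrix.mul_diagonal]
      rfl
    have e2 : ∏ j, (RatFunc.X : RatFunc F) ^ (- d j) = (RatFunc.X : RatFunc F) ^ (- ∑ j, d j) := by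
      rw [Fin.prod_univ_three, Fin.sum_univ_three, ← zpow_add₀ hX0, ← zpow_add₀ hX0]
      congr 1
      ring
    rw [e, Matrix.det_mul, Matrix.det_mul, Matrix.det_diagonal, e2]
    obtain ⟨h1, h2⟩ := hdetmap γ hγ
    refine ⟨mul_ne_zero (mul_ne_zero hg h1) (zpow_ne_zero _ hX0), ?_⟩
    rw [RatFunc.intDegree_mul (mul_ne_zero hg h1) (zpow_ne_zero _ hX0),
      RatFunc.intDegree_mul hg h1, h2, intDegree_X_zpow]
    ring
  have hbdd : ∃ b : ℤ, ∀ z, P z → b ≤ z := by
    refine ⟨g.det.intDegree, ?_⟩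
    rintro z ⟨γ, d, hγ, hm, hs⟩
    have h1 := det_mem (Matrix.of fun i j => (g * γ.map (algebraMap F[X] (RatFunc F))) i j *
      (RatFunc.X : RatFunc F) ^ (- d j)) hm
    rw [mem_OInf, (hdetK γ d hγ).2] at h1
    omega
  have hinh : ∃ z, P z := by
    obtain ⟨N, hN⟩ : ∃ N : ℤ, ∀ i j, (g i j).intDegree ≤ N := by
      refine ⟨∑ i, ∑ j, |(g i j).intDegree|, fun i j => (le_abs_self _).trans ?_⟩
      refine (Finset.single_le_sum (f := fun j => |(g i j).intDegree|)
        (fun _ _ => abs_nonneg _) (Finset.mem_univ j)).trans ?_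
      exact Finset.single_le_sum (f := fun i => ∑ j, |(g i j).intDegree|)
        (fun _ _ => Finset.sum_nonneg fun _ _ => abs_nonneg _) (Finset.mem_univ i)
    refine ⟨_, 1, fun _ => N, by simp, fun i j => ?_, rfl⟩
    have : (1 : Matrix (Fin 3) (Fin 3) F[X]).map (algebraMap F[X] (RatFunc F)) = 1 := by
      simp
    rw [this, mul_one]
    by_cases h0 : g i j = 0
    · rw [h0, zero_mul]
      exact zero_mem _
    · rw [mem_OInf, RatFunc.intDegree_mul h0 (zpow_ne_zero _ hX0), intDegree_X_zpow]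
      have := hN i j
      show (g i j).intDegree + -N ≤ 0
      omega
  obtain ⟨s, ⟨γ, d, hγ, hm, hs⟩, hmin⟩ := Int.exists_least_of_bdd hbdd hinh
  set κ : Matrix (Fin 3) (Fin 3) (RatFunc F) :=
    Matrix.of fun i j => (g * γ.map (algebraMap F[X] (RatFunc F))) i j *
      (RatFunc.X : RatFunc F) ^ (- d j) with hκ
  have hgk : g * γ.map (algebraMap F[X] (RatFunc F)) =
        κ * Matrix.diagonal (fun i => (RatFunc.X : RatFunc F) ^ d i) := by
    ext i j
    rw [Matrix.mul_diagonal, hκ, Matrix.of_apply, mul_assoc, ← zpow_add₀ hX0, neg_add_cancel,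
      zpow_zero, mul_one]
  have hκm : ∀ i j, κ i j ∈ OInf F := hm
  refine ⟨γ, d, κ, hγ, hκm, (hdetK γ d hγ).1, ?_, hgk⟩
  -- constants
  choose c hc using fun i j => exists_const (κ i j) (hκm i j)
  set Y : Matrix (Fin 3) (Fin 3) (RatFunc F) :=
    Matrix.of fun i j => RatFunc.X * (κ i j - RatFunc.C (c i j)) with hY
  set A : Matrix (Fin 3) (Fin 3) (RatFunc F) := Matrix.of fun i j => RatFunc.C (c i j) with hA
  set t : RatFunc F := (RatFunc.X)⁻¹ with ht
  have hXt : RatFunc.X * t = 1 := mul_inv_cancel₀ hX0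
  have hκe : κ = A + t • Y := by
    ext i j
    simp only [hA, hY, Matrix.add_apply, Matrix.smul_apply, Matrix.of_apply, smul_eq_mul]
    linear_combination (-(κ i j - RatFunc.C (c i j))) * hXt
  have hYm : ∀ i j, Y i j ∈ OInf F := fun i j => hc i j
  have hAm : ∀ i j, A i j ∈ OInf F := fun i j => C_mem _
  have htm : t ∈ OInf F := Xinv_mem
  have hdiff : RatFunc.X * (κ.det - A.det) ∈ OInf F := by
    rw [hκe, det_expand _ _ hXt]
    exact add_mem (add_mem (trace_mem _ (mul_mem' _ _ (adj_mem _ hAm) hYm))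
      (mul_mem htm (trace_mem _ (mul_mem' _ _ hAm (adj_mem _ hYm)))))
      (mul_mem (pow_mem htm 2) (det_mem _ hYm))
  have hAdet : A.det = RatFunc.C (Matrix.det (Matrix.of c)) := by
    rw [RingHom.map_det]
    rfl
  have hκ0 := (hdetK γ d hγ).1
  rw [← hκ] at hκ0
  by_cases hdet : Matrix.det (Matrix.of c) = 0
  swap
  · -- unit
    rw [mem_OInf, RatFunc.intDegree_inv]
    have hA0 : A.det ≠ 0 := by
      rw [hAdet]
      simpa using hdet
    by_contra hneg
    have hneg' : κ.det.intDegree < 0 := by omega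
    have hXk : RatFunc.X * κ.det ∈ OInf F := by
      rw [mem_OInf, RatFunc.intDegree_mul hX0 hκ0, RatFunc.intDegree_X]
      omega
    have hXA : RatFunc.X * A.det ∈ OInf F := by
      have := sub_mem hXk hdiff
      have e : RatFunc.X * κ.det - RatFunc.X * (κ.det - A.det) = RatFunc.X * A.det := by ring
      rwa [e] at this
    rw [mem_OInf, RatFunc.intDegree_mul hX0 hA0, hAdet, RatFunc.intDegree_C,
      RatFunc.intDegree_X] at hXA
    omega
  · -- reduction
    exfalso
    obtain ⟨w, hw0, hw⟩ := Matrix.exists_mulVec_eq_zero_iff.2 hdet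
    have hne : (Finset.univ.filter fun i => w i ≠ 0).Nonempty := by
      by_contra h
      rw [Finset.not_nonempty_iff_eq_empty, Finset.filter_eq_empty_iff] at h
      apply hw0
      ext i
      have := h (Finset.mem_univ i)
      simpa using this
    obtain ⟨i, hi, himax⟩ := Finset.exists_max_image _ d hne
    rw [Finset.mem_filter] at hi
    have hwi : w i ≠ 0 := hi.2
    have himax' : ∀ j, w j ≠ 0 → d j ≤ d i := fun j hj =>
      himax j (Finset.mem_filter.2 ⟨Finset.mem_univ _, hj⟩)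
    set v : Fin 3 → F[X] := fun j => Polynomial.C (w j / w i) *
      (Polynomial.X : F[X]) ^ (d i - d j).toNat with hv
    set T : Matrix (Fin 3) (Fin 3) F[X] := (1 : Matrix (Fin 3) (Fin 3) F[X]).updateCol i v with hT
    have hTdet : T.det = 1 := by
      rw [hT, ← Matrix.cramer_apply, Matrix.cramer_one, Module.End.one_apply, hv]
      simp [div_self hwi]
    set d' : Fin 3 → ℤ := Function.update d i (d i - 1) with hd'
    have hsum : ∑ j, d' j = s - 1 := by
      rw [hd', Finset.sum_update_of_mem (Finset.mem_univ i), ← hs,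
        ← Finset.add_sum_erase _ _ (Finset.mem_univ i), Finset.sdiff_singleton_eq_erase]
      ring
    have hP' : P (s - 1) := by
      refine ⟨γ * T, d', ?_, ?_, hsum⟩
      · rw [Matrix.det_mul, hTdet, mul_one]
        exact hγ
      · intro k j
        have e1 : (γ * T).map (algebraMap F[X] (RatFunc F)) =
            γ.map (algebraMap F[X] (RatFunc F)) * T.map (algebraMap F[X] (RatFunc F)) := by
          rw [Matrix.map_mul]
        rw [e1, ← Matrix.mul_assoc, Matrix.mul_apply]
        by_cases hj : j = i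
        · subst hj
          have e2 : ∀ l, (g * γ.map (algebraMap F[X] (RatFunc F))) k l *
              T.map (algebraMap F[X] (RatFunc F)) l j =
              RatFunc.X ^ (d j) * (RatFunc.C (w j))⁻¹ * (κ k l * RatFunc.C (w l)) := by
            intro l
            rw [Matrix.map_apply, hT, Matrix.updateCol_self, hgk, Matrix.mul_diagonal, hv]
            by_cases hwl : w l = 0
            · simp [hwl]
            · have h3 := himax' l hwl
              have e3 : (RatFunc.X : RatFunc F) ^ (d l) * RatFunc.X ^ (d j - d l).toNat =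
                  RatFunc.X ^ (d j) := by
                rw [← zpow_natCast, ← zpow_add₀ hX0]
                congr 1
                omega
              rw [map_mul, map_pow, RatFunc.algebraMap_C, RatFunc.algebraMap_X, map_div₀,
                ← e3]
              ring
          rw [Finset.sum_congr rfl fun l _ => e2 l, ← Finset.mul_sum]
          have e4 : ∑ l, κ k l * RatFunc.C (w l) = t * ∑ l, Y k l * RatFunc.C (w l) := by
            have h5 : ∑ l, RatFunc.C (c k l) * RatFunc.C (w l) = 0 := by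
              have := congrFun hw k
              rw [Matrix.mulVec, dotProduct] at this
              simp only [Matrix.of_apply, Pi.zero_apply] at this
              rw [← map_zero RatFunc.C, ← this, map_sum]
              exact Finset.sum_congr rfl fun l _ => by rw [map_mul]
            rw [hκe]
            simp only [Matrix.add_apply, Matrix.smul_apply, smul_eq_mul, add_mul,
              Finset.sum_add_distrib]
            rw [hA]
            simp only [Matrix.of_apply]
            rw [h5, zero_add, Finset.mul_sum]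
            exact Finset.sum_congr rfl fun l _ => by ring
          have e5 : (RatFunc.X : RatFunc F) ^ (- d' j) =
              RatFunc.X ^ (- d j) * RatFunc.X := by
            rw [hd', Function.update_self, ← zpow_add_one₀ hX0]
            congr 1
            ring
          have e6 : (RatFunc.X : RatFunc F) ^ (d j) * RatFunc.X ^ (- d j) = 1 := by
            rw [← zpow_add₀ hX0, add_neg_cancel, zpow_zero]
          have e7 : RatFunc.X ^ (d j) * (RatFunc.C (w j))⁻¹ * (∑ l, κ k l * RatFunc.C (w l)) *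
              RatFunc.X ^ (- d' j) = RatFunc.C ((w j)⁻¹) * ∑ l, Y k l * RatFunc.C (w l) := by
            rw [e4, e5, map_inv₀]
            calc RatFunc.X ^ (d j) * (RatFunc.C (w j))⁻¹ * (t * ∑ l, Y k l * RatFunc.C (w l)) *
              (RatFunc.X ^ (- d j) * RatFunc.X) = (RatFunc.X ^ (d j) * RatFunc.X ^ (- d j)) *
                (RatFunc.X * t) * ((RatFunc.C (w j))⁻¹ * ∑ l, Y k l * RatFunc.C (w l)) := by ring
              _ = _ := by rw [e6, hXt]; ring
          rw [e7]
          exact mul_mem (C_mem _) (sum_mem fun l _ => mul_mem (hYm _ _) (C_mem _))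
        · have e2 : ∑ l, (g * γ.map (algebraMap F[X] (RatFunc F))) k l *
              T.map (algebraMap F[X] (RatFunc F)) l j =
              (g * γ.map (algebraMap F[X] (RatFunc F))) k j := by
            rw [Finset.sum_eq_single j]
            · rw [Matrix.map_apply, hT, Matrix.updateCol_ne hj, Matrix.one_apply_eq, map_one,
                mul_one]
            · intro l _ hl
              rw [Matrix.map_apply, hT, Matrix.updateCol_ne hj, Matrix.one_apply_ne hl, map_zero,
                mul_zero]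
            · intro h
              exact absurd (Finset.mem_univ j) h
          rw [e2, hd', Function.update_of_ne hj]
          exact hm k j
    have := hmin _ hP'
    omega

end Pool.AVR

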