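import Pool.Agent.H2.AVR.BIR

set_option autoImplicit false
set_option linter.all false

namespace Pool.AVR.NRM2

open Polynomial Matrix BIR2

variable {F : Type} [Field F]

/-- degree bound -/
def DB (p : F[X]) (z : ℤ) : Prop := ∀ k : ℕ, z < k → p.coeff k = 0

lemma DB.zero (z : ℤ) : DB (0 : F[X]) z := fun k _ => by simp

lemma DB.add {p q : F[X]} {z : ℤ} (hp : DB p z) (hq : DB q z) : DB (p + q) z := fun k hk => by
  rw [coeff_add, hp k hk, hq k hk, add_zero]

lemma DB.neg {p : F[X]} {z : ℤ} (hp : DB p z) : DB (-p) z := fun k hk => by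
  rw [coeff_neg, hp k hk, neg_zero]

lemma DB.sub {p q : F[X]} {z : ℤ} (hp : DB p z) (hq : DB q z) : DB (p - q) z := fun k hk => by
  rw [coeff_sub, hp k hk, hq k hk, sub_zero]

lemma DB.mono {p : F[X]} {z w : ℤ} (hp : DB p z) (h : z ≤ w) : DB p w := fun k hk =>
  hp k (by omega)

lemma DB.C (c : F) {z : ℤ} (h : 0 ≤ z) : DB (Polynomial.C c) z := fun k hk => by
  rw [coeff_C, if_neg]
  omega

lemma DB.iff {p : F[X]} {z : ℤ} : DB p z ↔ (p ≠ 0 → (p.natDegree : ℤ) ≤ z) := by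
  constructor
  · intro h hp
    by_contra hlt
    have := h p.natDegree (by omega)
    exact hp (leadingCoeff_eq_zero.1 this)
  · intro h k hk
    by_cases hp : p = 0
    · simp [hp]
    · have := h hp
      exact coeff_eq_zero_of_natDegree_lt (by omega)

lemma DB.mul {p q : F[X]} {a b : ℤ} (hp : DB p a) (hq : DB q b) : DB (p * q) (a + b) := by
  rw [DB.iff] at *
  intro h
  have h1 : p ≠ 0 := left_ne_zero_of_mul h
  have h2 : q ≠ 0 := right_ne_zero_of_mul h
  rw [natDegree_mul h1 h2]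
  have := hp h1
  have := hq h2
  push_cast
  omega

lemma DB.eq_zero {p : F[X]} {z : ℤ} (h : DB p z) (hz : z < 0) : p = 0 := by
  ext k
  rw [h k (by omega), coeff_zero]

lemma DB.eq_C {p : F[X]} {z : ℤ} (h : DB p z) (hz : z ≤ 0) : p = Polynomial.C (p.coeff 0) := by
  ext k
  rw [coeff_C]
  split_ifs with hk
  · rw [hk]
  · exact h k (by omega)

lemma DB.sum {p : Fin 3 → F[X]} {z : ℤ} (h : ∀ i, DB (p i) z) : DB (∑ i, p i) z := by
  rw [Fin.sum_univ_three]
  exact ((h 0).add (h 1)).add (h 2)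

lemma DB.of_rat {p : F[X]} {z : ℤ} {y : RatFunc F} (hy : y ∈ OInf F)
    (h : algebraMap F[X] (RatFunc F) p = RatFunc.X ^ z * y) : DB p z := by
  rw [DB.iff]
  intro hp
  have hX0 : (RatFunc.X : RatFunc F) ≠ 0 := RatFunc.X_ne_zero
  have hp' : algebraMap F[X] (RatFunc F) p ≠ 0 := RatFunc.algebraMap_ne_zero hp
  have hy0 : y ≠ 0 := by
    rintro rfl
    rw [mul_zero] at h
    exact hp' h
  have h1 := congrArg RatFunc.intDegree h
  rw [RatFunc.intDegree_polynomial, RatFunc.intDegree_mul (zpow_ne_zero _ hX0) hy0,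
    intDegree_X_zpow] at h1
  rw [mem_OInf] at hy
  omega

lemma gram {R : Type} [CommRing R] (a a' b b' s k g h : R) (ha : a * a' = 1) (hb : b * b' = 1)
    (hs : s ^ 2 * b = 1) (hk : 2 * k = 1) :
    (!![1, 0, -k * a' ^ 2 * (h - b' * g ^ 2); 0, s, -a' * b' * g; 0, 0, a'] :
      Matrix (Fin 3) (Fin 3) R)ᵀ * !![0, 0, a; 0, b, g; a, g, h] *
      !![1, 0, -k * a' ^ 2 * (h - b' * g ^ 2); 0, s, -a' * b' * g; 0, 0, a'] = AA R := by
  ext i j
  fin_cases i <;> fin_cases j <;>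
    simp [Matrix.mul_apply, Fin.sum_univ_three, AA, Matrix.transpose_apply]
  · exact ha
  · linear_combination hs
  · linear_combination (-s * a' * g) * hb
  · linear_combination ha
  · linear_combination (-s * a' * g) * hb
  · linear_combination (-(2 * k * a' ^ 2) * (h - b' * g ^ 2)) * ha
      - a' ^ 2 * (h - b' * g ^ 2) * hk + (a' ^ 2 * b' * g ^ 2) * hb

lemma conj_DB (n m : ℕ) (B γ : Matrix (Fin 3) (Fin 3) F[X]) (hB : Bᵀ = B)
    (hBd : ∀ i j, DB (B i j) (2 * n + dd m i + dd m j))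
    (hγ : ∀ i j, DB (γ i j) (dd m j - dd m i)) : Bd n m (γᵀ * B * γ) := by
  constructor
  · rw [Matrix.transpose_mul, Matrix.transpose_mul, Matrix.transpose_transpose, hB,
      Matrix.mul_assoc]
  · intro i j
    rw [← DB.iff]
    rw [Matrix.mul_apply]
    refine DB.sum fun l => ?_
    rw [Matrix.mul_apply]
    have h1 : DB (∑ k, γᵀ i k * B k l) (2 * n + dd m i + dd m l) := by
      refine DB.sum fun k => ?_
      rw [Matrix.transpose_apply]
      exact ((hγ k i).mul (hBd k l)).mono (by omega)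
    exact (h1.mul (hγ l j)).mono (by omega)

lemma core (h2 : (2 : F) ≠ 0) (n m : ℕ) (G B : Matrix (Fin 3) (Fin 3) F[X]) (ε : F) (hε : ε ≠ 0)
    (hG : Gᵀ = G) (hB : Bᵀ = B) (hdet : G.det = - Polynomial.C (ε ^ 2))
    (hGd : ∀ i j, DB (G i j) (dd m i + dd m j))
    (hBd : ∀ i j, DB (B i j) (2 * n + dd m i + dd m j)) (h00 : G 0 0 = 0) (h01 : G 0 1 = 0) :
    ∃ γ : Matrix (Fin 3) (Fin 3) F[X], γᵀ * G * γ = AA F[X] ∧ Bd n m (γᵀ * B * γ) := by
  have hGs : ∀ i j, G i j = G j i := fun i j => by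
    conv_lhs => rw [← hG]
    rfl
  obtain ⟨α, hα⟩ : ∃ α : F, G 0 2 = Polynomial.C α :=
    ⟨_, (hGd 0 2).eq_C (by simp [dd])⟩
  obtain ⟨β, hβ⟩ : ∃ β : F, G 1 1 = Polynomial.C β :=
    ⟨_, (hGd 1 1).eq_C (by simp [dd])⟩
  have hGe : G = !![0, 0, Polynomial.C α; 0, Polynomial.C β, G 1 2;
      Polynomial.C α, G 1 2, G 2 2] := by
    ext1 i j
    fin_cases i <;> fin_cases j <;> simp [h00, h01, hα, hβ, hGs 1 0, hGs 2 0, hGs 2 1]
  have hdet2 : α ^ 2 * β = ε ^ 2 := by
    rw [hGe] at hdet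
    simp [Matrix.det_fin_three] at hdet
    have : Polynomial.C (α ^ 2 * β) = Polynomial.C (ε ^ 2) := by
      simp only [map_mul, map_pow]
      linear_combination hdet
    exact Polynomial.C_injective this
  have hα0 : α ≠ 0 := by
    rintro rfl
    apply hε
    have : ε ^ 2 = 0 := by rw [← hdet2]; ring
    exact pow_eq_zero_iff (two_ne_zero) |>.1 this
  have hβ0 : β ≠ 0 := by
    rintro rfl
    apply hε
    have : ε ^ 2 = 0 := by rw [← hdet2]; ring
    exact pow_eq_zero_iff (two_ne_zero) |>.1 this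
  have hs : (Polynomial.C (α / ε)) ^ 2 * Polynomial.C β = (1 : F[X]) := by
    rw [← Polynomial.C_pow, ← Polynomial.C_mul, ← Polynomial.C_1]
    congr 1
    field_simp
    linear_combination hdet2
  have ha : Polynomial.C α * Polynomial.C α⁻¹ = (1 : F[X]) := by
    rw [← Polynomial.C_mul, mul_inv_cancel₀ hα0, Polynomial.C_1]
  have hb : Polynomial.C β * Polynomial.C β⁻¹ = (1 : F[X]) := by
    rw [← Polynomial.C_mul, mul_inv_cancel₀ hβ0, Polynomial.C_1]
  have hk : 2 * Polynomial.C (2 : F)⁻¹ = (1 : F[X]) := by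
    have : (2 : F[X]) = Polynomial.C (2 : F) := rfl
    rw [this, ← Polynomial.C_mul, mul_inv_cancel₀ h2, Polynomial.C_1]
  set γ : Matrix (Fin 3) (Fin 3) F[X] :=
    !![1, 0, -Polynomial.C (2 : F)⁻¹ * (Polynomial.C α⁻¹) ^ 2 *
        (G 2 2 - Polynomial.C β⁻¹ * (G 1 2) ^ 2);
       0, Polynomial.C (α / ε), -Polynomial.C α⁻¹ * Polynomial.C β⁻¹ * G 1 2;
       0, 0, Polynomial.C α⁻¹] with hγ
  refine ⟨γ, ?_, ?_⟩
  · conv_lhs => rw [hGe]
    exact gram _ _ _ _ _ _ _ _ ha hb hs hk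
  · refine conj_DB n m B γ hB hBd fun i j => ?_
    have hg := hGd 1 2
    have hh := hGd 2 2
    have e1 : dd m 0 = -(m : ℤ) := rfl
    have e2 : dd m 1 = 0 := rfl
    have e3 : dd m 2 = (m : ℤ) := rfl
    have hC : ∀ (c : F) (p : F[X]) (z : ℤ), DB p z → DB (Polynomial.C c * p) z := fun c p z hp =>
      ((DB.C c le_rfl).mul hp).mono (by omega)
    have h1 : DB (1 : F[X]) 0 := by
      rw [← Polynomial.C_1]; exact DB.C _ le_rfl
    fin_cases i <;> fin_cases j
    · exact h1.mono (by simp [dd])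
    · exact DB.zero _
    · show DB (-Polynomial.C (2 : F)⁻¹ * (Polynomial.C α⁻¹) ^ 2 *
        (G 2 2 - Polynomial.C β⁻¹ * (G 1 2) ^ 2)) (dd m 2 - dd m 0)
      have e : -Polynomial.C (2 : F)⁻¹ * (Polynomial.C α⁻¹) ^ 2 *
        (G 2 2 - Polynomial.C β⁻¹ * (G 1 2) ^ 2) = -(Polynomial.C (2 : F)⁻¹ *
          (Polynomial.C α⁻¹ * (Polynomial.C α⁻¹ *
            (G 2 2 - Polynomial.C β⁻¹ * (G 1 2 * G 1 2))))) := by ring
      rw [e]
      refine DB.neg (hC _ _ _ (hC _ _ _ (hC _ _ _ (DB.sub ?_ (hC _ _ _ ?_)))))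
      · exact hh.mono (by omega)
      · exact (hg.mul hg).mono (by omega)
    · exact DB.zero _
    · exact (DB.C _ le_rfl).mono (by simp [dd])
    · show DB (-Polynomial.C α⁻¹ * Polynomial.C β⁻¹ * G 1 2) (dd m 2 - dd m 1)
      have e : -Polynomial.C α⁻¹ * Polynomial.C β⁻¹ * G 1 2 =
        -(Polynomial.C α⁻¹ * (Polynomial.C β⁻¹ * G 1 2)) := by ring
      rw [e]
      exact DB.neg (hC _ _ _ (hC _ _ _ (hg.mono (by omega))))
    · exact DB.zero _
    · exact DB.zero _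
    · exact (DB.C _ le_rfl).mono (by simp [dd])

lemma isotropic [Finite F] (G : Matrix (Fin 3) (Fin 3) F) :
    ∃ v : Fin 3 → F, v ≠ 0 ∧ ∑ i, ∑ j, G i j * v i * v j = 0 := by
  classical
  haveI := Fintype.ofFinite F
  obtain ⟨p, hp⟩ := CharP.exists F
  set f : MvPolynomial (Fin 3) F := ∑ i, ∑ j, MvPolynomial.C (G i j) * MvPolynomial.X i *
    MvPolynomial.X j with hf
  have hdeg : f.totalDegree < Fintype.card (Fin 3) := by
    have : f.totalDegree ≤ 2 := by
      refine MvPolynomial.totalDegree_finsetSum_le fun i _ =>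
        MvPolynomial.totalDegree_finsetSum_le fun j _ => ?_
      refine (MvPolynomial.totalDegree_mul _ _).trans ?_
      have h1 := MvPolynomial.totalDegree_mul (MvPolynomial.C (G i j)) (MvPolynomial.X (R := F) i)
      rw [MvPolynomial.totalDegree_C, MvPolynomial.totalDegree_X] at h1
      rw [MvPolynomial.totalDegree_X]
      omega
    rw [Fintype.card_fin]
    omega
  have heval : ∀ x : Fin 3 → F, MvPolynomial.eval x f = ∑ i, ∑ j, G i j * x i * x j := by
    intro x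
    simp [hf]
  have hprime : p.Prime := CharP.char_is_prime F p
  have hdvd := char_dvd_card_solutions p hdeg
  by_contra hno
  push Not at hno
  have hcard : Fintype.card {x : Fin 3 → F // MvPolynomial.eval x f = 0} = 1 := by
    rw [Fintype.card_eq_one_iff]
    refine ⟨⟨0, by rw [heval]; simp⟩, ?_⟩
    rintro ⟨x, hx⟩
    rw [Subtype.mk.injEq]
    by_contra hx0
    exact hno x hx0 (by rw [← heval]; exact hx)
  rw [hcard, Nat.dvd_one] at hdvd
  exact hprime.one_lt.ne' hdvd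

lemma base0 (G : Matrix (Fin 3) (Fin 3) F) (hG : Gᵀ = G) (hdet : G.det ≠ 0) (v : Fin 3 → F)
    (hv : v ≠ 0) (hvv : ∑ i, ∑ j, G i j * v i * v j = 0) :
    ∃ γ : Matrix (Fin 3) (Fin 3) F, γ.det = 1 ∧ (γᵀ * G * γ) 0 0 = 0 ∧
      (γᵀ * G * γ) 0 1 = 0 := by
  have hGs : ∀ i j, G i j = G j i := fun i j => by
    conv_lhs => rw [← hG]
    rfl
  have hh : G *ᵥ v ≠ 0 := by
    intro h
    exact hdet (Matrix.exists_mulVec_eq_zero_iff.1 ⟨v, hv, h⟩)
  have key : ∀ w : Fin 3 → F, w ≠ 0 → ∃ z : Fin 3 → F, ∑ i, w i * z i = 1 := by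
    intro w hw
    obtain ⟨k, hk⟩ := Function.ne_iff.1 hw
    refine ⟨Pi.single k (w k)⁻¹, ?_⟩
    rw [Finset.sum_eq_single k]
    · rw [Pi.single_eq_same, mul_inv_cancel₀ hk]
    · intro b _ hb
      rw [Pi.single_eq_of_ne hb, mul_zero]
    · intro h; exact absurd (Finset.mem_univ k) h
  obtain ⟨z, hz⟩ := key v hv
  obtain ⟨e, he⟩ := key _ hh
  set h : Fin 3 → F := G *ᵥ v with hh'
  have hhi : ∀ i, h i = G i 0 * v 0 + G i 1 * v 1 + G i 2 * v 2 := by
    intro i
    rw [hh', Matrix.mulVec, dotProduct, Fin.sum_univ_three]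
  rw [Fin.sum_univ_three] at hz he
  have hvh : v 0 * h 0 + v 1 * h 1 + v 2 * h 2 = 0 := by
    simp only [Fin.sum_univ_three] at hvv
    rw [hhi, hhi, hhi]
    linear_combination hvv
  refine ⟨!![v 0, h 1 * z 2 - h 2 * z 1, e 0; v 1, h 2 * z 0 - h 0 * z 2, e 1;
    v 2, h 0 * z 1 - h 1 * z 0, e 2], ?_, ?_, ?_⟩
  · rw [Matrix.det_fin_three]
    simp
    linear_combination he * (v 0 * z 0 + v 1 * z 1 + v 2 * z 2) + hz -
      (z 0 * e 0 + z 1 * e 1 + z 2 * e 2) * hvh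
  · simp [Matrix.mul_apply, Fin.sum_univ_three, Matrix.transpose_apply]
    simp only [Fin.sum_univ_three] at hvv
    linear_combination hvv
  · simp [Matrix.mul_apply, Fin.sum_univ_three, Matrix.transpose_apply]
    have h0 := hhi 0
    have h1 := hhi 1
    have h2 := hhi 2
    rw [hGs 1 0, hGs 2 0, hGs 2 1]
    rw [hGs 1 0] at h1
    rw [hGs 2 0, hGs 2 1] at h2
    linear_combination (-(h 1 * z 2 - h 2 * z 1)) * h0 - (h 2 * z 0 - h 0 * z 2) * h1 -
      (h 0 * z 1 - h 1 * z 0) * h2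

lemma sorted [Finite F] (h2 : (2 : F) ≠ 0) (n : ℕ) (G B : Matrix (Fin 3) (Fin 3) F[X])
    (d : Fin 3 → ℤ) (ε : F) (hε : ε ≠ 0) (hG : Gᵀ = G) (hB : Bᵀ = B)
    (hdet : G.det = - Polynomial.C (ε ^ 2)) (hd1 : d 0 ≤ d 1) (hd2 : d 1 ≤ d 2)
    (hsum : d 0 + d 1 + d 2 = 0) (hGd : ∀ i j, DB (G i j) (d i + d j))
    (hBd : ∀ i j, DB (B i j) (2 * n + d i + d j)) :
    ∃ (m : ℕ) (γ : Matrix (Fin 3) (Fin 3) F[X]), γᵀ * G * γ = AA F[X] ∧
      Bd n m (γᵀ * B * γ) := by
  have hGs : ∀ i j, G i j = G j i := fun i j => by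
    conv_lhs => rw [← hG]
    rfl
  have hdet0 : G.det ≠ 0 := by
    rw [hdet, neg_ne_zero]
    simpa using hε
  have a1 : 0 ≤ d 0 + d 2 := by
    by_contra h
    apply hdet0
    have b0 : G 0 0 = 0 := (hGd 0 0).eq_zero (by omega)
    have b1 : G 0 1 = 0 := (hGd 0 1).eq_zero (by omega)
    have b2 : G 0 2 = 0 := (hGd 0 2).eq_zero (by omega)
    rw [Matrix.det_fin_three, b0, b1, b2]
    ring
  have a2 : d 1 = 0 := by
    by_contra h
    apply hdet0
    have b0 : G 0 0 = 0 := (hGd 0 0).eq_zero (by omega)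
    have b1 : G 0 1 = 0 := (hGd 0 1).eq_zero (by omega)
    have b2 : G 1 1 = 0 := (hGd 1 1).eq_zero (by omega)
    have b3 : G 1 0 = 0 := by rw [hGs]; exact b1
    rw [Matrix.det_fin_three, b0, b1, b2, b3]
    ring
  obtain ⟨m, hm⟩ := Int.eq_ofNat_of_zero_le (show 0 ≤ d 2 by omega)
  have hdd : ∀ i, d i = dd m i := by
    intro i
    fin_cases i
    · show d 0 = -(m : ℤ)
      omega
    · show d 1 = 0
      omega
    · show d 2 = (m : ℤ)
      omega
  have hGd' : ∀ i j, DB (G i j) (dd m i + dd m j) := fun i j => by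
    rw [← hdd, ← hdd]; exact hGd i j
  have hBd' : ∀ i j, DB (B i j) (2 * n + dd m i + dd m j) := fun i j => by
    rw [← hdd, ← hdd]; exact hBd i j
  refine ⟨m, ?_⟩
  have e1 : dd m 0 = -(m : ℤ) := rfl
  have e2 : dd m 1 = 0 := rfl
  have e3 : dd m 2 = (m : ℤ) := rfl
  rcases Nat.eq_zero_or_pos m with h0 | hpos
  swap
  · exact core h2 n m G B ε hε hG hB hdet hGd' hBd' ((hGd' 0 0).eq_zero (by omega))
      ((hGd' 0 1).eq_zero (by omega))
  -- m = 0
  subst h0
  have hz : ∀ i, dd 0 i = 0 := by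
    intro i
    fin_cases i <;> rfl
  set G1 : Matrix (Fin 3) (Fin 3) F := G.map (fun p => p.coeff 0) with hG1
  have hGe : G = G1.map Polynomial.C := by
    ext1 i j
    exact (hGd' i j).eq_C (by rw [hz, hz]; norm_num)
  have hG1s : G1ᵀ = G1 := by
    rw [hG1, ← Matrix.transpose_map, hG]
  have hG1det : G1.det = - ε ^ 2 := by
    have : Polynomial.C G1.det = Polynomial.C (-ε ^ 2) := by
      rw [RingHom.map_det]
      show (G1.map Polynomial.C).det = _
      rw [← hGe, hdet]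
      simp
    exact Polynomial.C_injective this
  have hG1det0 : G1.det ≠ 0 := by
    rw [hG1det, neg_ne_zero]
    exact pow_ne_zero _ hε
  obtain ⟨v, hv, hvv⟩ := isotropic G1
  obtain ⟨γ₀, hγdet, h00, h01⟩ := base0 G1 hG1s hG1det0 v hv hvv
  set γ₁ : Matrix (Fin 3) (Fin 3) F[X] := γ₀.map Polynomial.C with hγ₁
  have hconj : γ₁ᵀ * G * γ₁ = (γ₀ᵀ * G1 * γ₀).map Polynomial.C := by
    rw [hGe, hγ₁, Matrix.map_mul, Matrix.map_mul, Matrix.transpose_map]
  have hγ₁det : γ₁.det = 1 := by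
    have : γ₁.det = Polynomial.C γ₀.det := by
      rw [RingHom.map_det]; rfl
    rw [this, hγdet, map_one]
  have hBn : ∀ i j, DB ((γ₁ᵀ * B * γ₁) i j) (2 * n + dd 0 i + dd 0 j) := by
    have := conj_DB n 0 B γ₁ hB hBd' (fun i j => by
      rw [hz, hz]; exact DB.C _ (by norm_num))
    intro i j
    rw [DB.iff]
    exact this.2 i j
  obtain ⟨γ₂, hγ₂, hγ₂'⟩ := core h2 n 0 (γ₁ᵀ * G * γ₁) (γ₁ᵀ * B * γ₁) ε hε
    (by rw [Matrix.transpose_mul, Matrix.transpose_mul, Matrix.transpose_transpose, hG,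
      Matrix.mul_assoc])
    (by rw [Matrix.transpose_mul, Matrix.transpose_mul, Matrix.transpose_transpose, hB,
      Matrix.mul_assoc])
    (by rw [Matrix.det_mul, Matrix.det_mul, Matrix.det_transpose, hγ₁det, hdet]; ring)
    (fun i j => by rw [hconj, hz, hz]; exact DB.C _ (by norm_num))
    hBn (by rw [hconj, Matrix.map_apply, h00, map_zero])
    (by rw [hconj, Matrix.map_apply, h01, map_zero])
  refine ⟨γ₁ * γ₂, ?_, ?_⟩
  · rw [← hγ₂, Matrix.transpose_mul]
    simp only [Matrix.mul_assoc]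
  · have : (γ₁ * γ₂)ᵀ * B * (γ₁ * γ₂) = γ₂ᵀ * (γ₁ᵀ * B * γ₁) * γ₂ := by
      rw [Matrix.transpose_mul]
      simp only [Matrix.mul_assoc]
    rw [this]
    exact hγ₂'

end Pool.AVR.NRM2

namespace Pool.AVR

open Polynomial Matrix BIR2 NRM2

theorem nrm_thm : NRMStmt := by
  classical
  intro F _ _ h2 n G B G₀ B₀ d ε hε hG hB hdet hG0 hB0 hG0d hG0i hGe hBe
  have hX0 : (RatFunc.X : RatFunc F) ≠ 0 := RatFunc.X_ne_zero
  -- degrees
  have hGd : ∀ i j, DB (G i j) (d i + d j) := by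
    intro i j
    refine DB.of_rat (hG0 i j) ?_
    have := congrFun (congrFun hGe i) j
    rw [Matrix.map_apply, Matrix.mul_diagonal, Matrix.diagonal_mul] at this
    rw [this, zpow_add₀ hX0]
    ring
  have hBd : ∀ i j, DB (B i j) (2 * n + d i + d j) := by
    intro i j
    refine DB.of_rat (hB0 i j) ?_
    have := congrFun (congrFun hBe i) j
    rw [Matrix.map_apply, Matrix.smul_apply, Matrix.mul_diagonal, Matrix.diagonal_mul,
      smul_eq_mul] at this
    rw [this, zpow_add₀ hX0, zpow_add₀ hX0]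
    have e : (RatFunc.X : RatFunc F) ^ (2 * (n : ℤ)) = RatFunc.X ^ (2 * n) := by
      rw [← zpow_natCast]
      push_cast
      rfl
    rw [e]
    ring
  have hsum : d 0 + d 1 + d 2 = 0 := by
    have h1 := congrArg Matrix.det hGe
    rw [Matrix.det_mul, Matrix.det_mul, Matrix.det_diagonal] at h1
    have h3 : (G.map (algebraMap F[X] (RatFunc F))).det = RatFunc.C (-ε ^ 2) := by
      have : (G.map (algebraMap F[X] (RatFunc F))).det = algebraMap F[X] (RatFunc F) G.det := by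
        rw [RingHom.map_det]; rfl
      rw [this, hdet]
      simp
    have h4 : ∏ i, (RatFunc.X : RatFunc F) ^ d i = RatFunc.X ^ (d 0 + d 1 + d 2) := by
      rw [Fin.prod_univ_three, zpow_add₀ hX0, zpow_add₀ hX0]
    rw [h3, h4] at h1
    have h5 := congrArg RatFunc.intDegree h1
    rw [RatFunc.intDegree_C, RatFunc.intDegree_mul (mul_ne_zero (zpow_ne_zero _ hX0) hG0d)
      (zpow_ne_zero _ hX0), RatFunc.intDegree_mul (zpow_ne_zero _ hX0) hG0d,
      intDegree_X_zpow] at h5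
    have h6 := det_mem _ hG0
    rw [mem_OInf] at h6 hG0i
    rw [RatFunc.intDegree_inv] at hG0i
    omega
  -- sorting
  set σ : Equiv.Perm (Fin 3) := Tuple.sort d with hσ
  have hmono : Monotone (d ∘ σ) := Tuple.monotone_sort d
  have hs1 : d (σ 0) ≤ d (σ 1) := hmono (by decide)
  have hs2 : d (σ 1) ≤ d (σ 2) := hmono (by decide)
  have hs3 : d (σ 0) + d (σ 1) + d (σ 2) = 0 := by
    have := Equiv.sum_comp σ d
    rw [Fin.sum_univ_three, Fin.sum_univ_three] at this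
    rw [this, hsum]
  obtain ⟨m, γ, hγ, hγ'⟩ := sorted h2 n (G.submatrix σ σ) (B.submatrix σ σ) (fun i => d (σ i)) ε hε
    (by rw [Matrix.transpose_submatrix, hG]) (by rw [Matrix.transpose_submatrix, hB])
    (by rw [Matrix.det_submatrix_equiv_self, hdet]) hs1 hs2 hs3 (fun i j => hGd _ _)
    (fun i j => hBd _ _)
  have key : ∀ M : Matrix (Fin 3) (Fin 3) F[X], (γ.submatrix σ.symm id)ᵀ * M *
      (γ.submatrix σ.symm id) = γᵀ * M.submatrix σ σ * γ := by
    intro M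
    ext1 i j
    simp only [Matrix.mul_apply, Matrix.transpose_apply, Matrix.submatrix_apply, id]
    rw [← Equiv.sum_comp σ]
    refine Finset.sum_congr rfl fun l _ => ?_
    rw [← Equiv.sum_comp σ]
    simp only [Equiv.symm_apply_apply]
  exact ⟨m, γ.submatrix σ.symm id, by rw [key]; exact hγ, by rw [key]; exact hγ'⟩

end Pool.AVR

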