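import Pool.Agent.H14.AVR.Stmts2

set_option autoImplicit false
set_option linter.all false

namespace Pool.AVR.RNK2

open DirectSum

lemma card_iso (G A : Type) [AddCommGroup G] [AddCommGroup A] (f : G →+ A)
    (hf : Function.Surjective f) (hk : f.ker = (nsmulAddMonoidHom (α := G) 2).range) :
    Nonempty (Mod2 G ≃+ A) := by
  have e1 : Mod2 G ≃+ G ⧸ f.ker := QuotientAddGroup.quotientAddEquivOfEq hk.symm
  exact ⟨e1.trans (QuotientAddGroup.quotientKerEquivOfSurjective f hf)⟩

end Pool.AVR.RNK2

namespace Pool.AVR

open RNK2 DirectSum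

theorem rnk_thm : RNKStmt := by
  classical
  intro G _ hFG
  obtain ⟨n, ι, _, p, hp, e, ⟨E⟩⟩ := AddCommGroup.equiv_free_prod_directSum_zmod G
  set T : Type := ⨁ i : ι, ZMod (p i ^ e i) with hT
  haveI : ∀ i, NeZero (p i ^ e i) := fun i => ⟨pow_ne_zero _ (hp i).ne_zero⟩
  haveI hTfin : Finite T := by
    refine Finite.of_injective (fun (x : T) (i : ι) => x i) ?_
    intro x y h
    ext i
    exact congrFun h i
  -- the map to (ZMod 2)^n x T/2T
  let f : G →+ (Fin n → ZMod 2) × Mod2 T :=
    { toFun := fun g => (fun i => ((E g).1 i : ZMod 2), QuotientAddGroup.mk (E g).2)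
      map_zero' := by
        simp
        rfl
      map_add' := by
        intro x y
        simp
        rfl }
  have hf : Function.Surjective f := by
    rintro ⟨u, t⟩
    obtain ⟨t, rfl⟩ := QuotientAddGroup.mk_surjective t
    refine ⟨E.symm (Finsupp.equivFunOnFinite.symm fun i => ((u i).val : ℤ), t), ?_⟩
    show ((fun i => ((E (E.symm _)).1 i : ZMod 2)), (QuotientAddGroup.mk (E (E.symm _)).2 : Mod2 T)) = _
    rw [E.apply_symm_apply]
    refine Prod.ext ?_ rfl
    funext i
    simp
  have hk : f.ker = (nsmulAddMonoidHom (α := G) 2).range := by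
    ext g
    rw [AddMonoidHom.mem_ker, AddMonoidHom.mem_range]
    constructor
    · intro h
      have h1 : (fun i => ((E g).1 i : ZMod 2)) = 0 := congrArg Prod.fst h
      have h2 : (QuotientAddGroup.mk (E g).2 : Mod2 T) = 0 := congrArg Prod.snd h
      rw [QuotientAddGroup.eq_zero_iff] at h2
      obtain ⟨t, ht⟩ := h2
      have h3 : ∀ i, ∃ k : ℤ, (E g).1 i = 2 * k := by
        intro i
        have := congrFun h1 i
        simp only [Pi.zero_apply] at this
        rw [ZMod.intCast_zmod_eq_zero_iff_dvd] at this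
        exact_mod_cast this
      choose k hk using h3
      refine ⟨E.symm (Finsupp.equivFunOnFinite.symm k, t), ?_⟩
      apply E.injective
      rw [nsmulAddMonoidHom_apply, map_nsmul, E.apply_symm_apply]
      refine Prod.ext ?_ ?_
      · ext i
        rw [hk i]
        simp
      · exact ht
    · rintro ⟨x, rfl⟩
      rw [nsmulAddMonoidHom_apply, map_nsmul]
      refine Prod.ext ?_ ?_
      · funext i
        show 2 • ((E x).1 i : ZMod 2) = 0
        rw [nsmul_eq_mul]
        have : ((2 : ℕ) : ZMod 2) = 0 := by decide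
        rw [this, zero_mul]
      · show 2 • (QuotientAddGroup.mk (E x).2 : Mod2 T) = 0
        have : 2 • (QuotientAddGroup.mk (E x).2 : Mod2 T) = QuotientAddGroup.mk (2 • (E x).2) := rfl
        rw [this, QuotientAddGroup.eq_zero_iff]
        exact ⟨(E x).2, rfl⟩
  obtain ⟨Φ⟩ := card_iso G _ f hf hk
  haveI : Finite (Mod2 T) := Finite.of_surjective _ QuotientAddGroup.mk_surjective
  have hcard : Nat.card (Mod2 G) = 2 ^ n * Nat.card (Mod2 T) := by
    rw [Nat.card_congr Φ.toEquiv, Nat.card_prod]
    congr 1
    simp [Nat.card_eq_fintype_card]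
  haveI : Module.Finite ℤ G := Module.Finite.iff_addGroup_fg.2 hFG
  have hrank : Module.finrank ℤ G = n := by
    let g : G →ₗ[ℤ] (Fin n →₀ ℤ) :=
      (LinearMap.fst ℤ (Fin n →₀ ℤ) T) ∘ₗ E.toIntLinearEquiv.toLinearMap
    have h1 : Module.finrank ℤ (LinearMap.range g) + Module.finrank ℤ (LinearMap.ker g) =
        Module.finrank ℤ G := by
      rw [← LinearEquiv.finrank_eq (g.quotKerEquivRange)]
      exact Submodule.finrank_quotient_add_finrank _
    have hsurj : Function.Surjective g := by
      intro u
      refine ⟨E.symm (u, 0), ?_⟩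
      show (E (E.symm (u, 0))).1 = u
      rw [E.apply_symm_apply]
    have h2 : LinearMap.range g = ⊤ := LinearMap.range_eq_top.2 hsurj
    have h3 : Module.finrank ℤ (LinearMap.ker g) = 0 := by
      rw [Module.finrank_eq_zero_iff_isTorsion]
      intro x
      have hx : (E (x : G)).1 = 0 := x.2
      refine ⟨⟨(Nat.card T : ℤ), ?_⟩, ?_⟩
      · rw [mem_nonZeroDivisors_iff_ne_zero]
        exact_mod_cast Nat.card_pos.ne'
      · apply Subtype.ext
        show (Nat.card T : ℤ) • (x : G) = 0
        apply E.injective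
        rw [map_zsmul, map_zero]
        refine Prod.ext ?_ ?_
        · show (Nat.card T : ℤ) • (E (x : G)).1 = 0
          rw [hx, smul_zero]
        · show (Nat.card T : ℤ) • (E (x : G)).2 = 0
          rw [natCast_zsmul]
          exact card_nsmul_eq_zero'
    rw [h2, h3, finrank_top, Module.finrank_finsupp_self, Fintype.card_fin] at h1
    omega
  refine ⟨Finite.of_equiv _ Φ.toEquiv.symm, ?_, ?_⟩
  · rw [hcard, hrank]
    exact Nat.le_mul_of_pos_right _ Nat.card_pos
  · intro h2
    rw [hcard, hrank]
    have hinj : Function.Injective (nsmulAddMonoidHom (α := T) 2) := by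
      rw [injective_iff_map_eq_zero]
      intro t ht
      rw [nsmulAddMonoidHom_apply, two_nsmul] at ht
      have := h2 (E.symm (0, t)) (by
        rw [← map_add, Prod.mk_add_mk, ht, add_zero]
        exact map_zero E.symm)
      have h3 : (0, t) = (0 : (Fin n →₀ ℤ) × T) := by
        apply E.symm.injective
        rw [this, map_zero]
      exact congrArg Prod.snd h3
    have hsurj : Function.Surjective (nsmulAddMonoidHom (α := T) 2) :=
      Finite.surjective_of_injective hinj
    haveI : Subsingleton (Mod2 T) := by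
      refine ⟨fun x y => ?_⟩
      obtain ⟨x, rfl⟩ := QuotientAddGroup.mk_surjective x
      obtain ⟨y, rfl⟩ := QuotientAddGroup.mk_surjective y
      rw [QuotientAddGroup.eq]
      exact hsurj _
    rw [Nat.card_unique, mul_one]

end Pool.AVR

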